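import Pool.Agent.Lib.TW92.Blue
import Pool.Agent.Lib.VC2.FG4
import Pool.Agent.Lib.VC2.FG7
import Pool.Agent.Lib.VC2.FGl

/-! The group of the twisted Whitehead link. -/

open Complex Matrix
open scoped MatrixGroups

namespace Pool.Agent.Lib.TW92

open Pool.Agent.Lib.MP_759431_gt

lemma WORD.cassini (z : ℂ) (n : ℕ) :
    fb z n * fb z (n + 2) - fb z (n + 1) ^ 2 = (-1) ^ (n + 1) := by
  induction n with
  | zero => simp [fb]
  | succ n ih =>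
    have e1 : fb z (n + 1 + 2) = z * fb z (n + 2) + fb z (n + 1) := rfl
    have e2 : fb z (n + 2) = z * fb z (n + 1) + fb z n := rfl
    rw [e1, pow_succ (-1 : ℂ) (n + 1), ← ih]
    rw [show n + 1 + 1 = n + 2 from rfl]
    linear_combination (-fb z (n + 2)) * e2

/-- the state in the long run -/
lemma WORD.run (w : ℕ → Bool) (κ : ℂ) (w0 : w 0 = true) (w1 : w 1 = true) (j : ℕ)
    (h : ∀ s < 2 * j + 1, w (s + 2) = false) :
    wx w κ (2 * j + 3) = I * κ ^ 2 ∧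
    wy w κ (2 * j + 3) = κ * (fb (κ ^ 2) (2 * j + 2) + fb (κ ^ 2) (2 * j + 1)) ∧
    wo w κ (2 * j + 3) = I * κ * (fb (κ ^ 2) (2 * j + 1) + fb (κ ^ 2) (2 * j)) := by
  induction j with
  | zero =>
    obtain ⟨a0, b0, c0⟩ := wxyo_zero w κ
    obtain ⟨a1, b1, c1⟩ := wxyo_R κ w0
    obtain ⟨a2, b2, c2⟩ := wxyo_R κ w1
    obtain ⟨a3, b3, c3⟩ := wxyo_L κ (h 0 (by omega))
    simp only [wn, zero_add, Nat.reduceAdd, mul_zero] at *
    rw [a3, b3, c3, a2, b2, c2, a1, b1, c1, a0, b0, c0]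
    simp only [fb]
    refine ⟨by ring, ?_, by ring⟩
    linear_combination (-κ ^ 3) * I_sq
  | succ j ih =>
    obtain ⟨a0, b0, c0⟩ := ih fun s hs => h s (by omega)
    obtain ⟨a1, b1, c1⟩ := wxyo_L κ (t := 2 * j + 3) (h (2 * j + 1) (by omega))
    obtain ⟨a2, b2, c2⟩ := wxyo_L κ (t := 2 * j + 3 + 1) (h (2 * j + 2) (by omega))
    have e1 : fb (κ ^ 2) (2 * (j + 1) + 2) =
        κ ^ 2 * fb (κ ^ 2) (2 * j + 3) + fb (κ ^ 2) (2 * j + 2) := rfl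
    have e2 : fb (κ ^ 2) (2 * j + 3) =
        κ ^ 2 * fb (κ ^ 2) (2 * j + 2) + fb (κ ^ 2) (2 * j + 1) := rfl
    have e3 : fb (κ ^ 2) (2 * j + 2) =
        κ ^ 2 * fb (κ ^ 2) (2 * j + 1) + fb (κ ^ 2) (2 * j) := rfl
    rw [show 2 * (j + 1) + 3 = 2 * j + 3 + 1 + 1 from rfl, e1,
      show 2 * (j + 1) + 1 = 2 * j + 3 from rfl, show 2 * (j + 1) = 2 * j + 2 from rfl]
    simp only [wn] at *
    rw [a2, b2, c2, a1, b1, c1, a0, b0, c0]
    refine ⟨by ring, ?_, ?_⟩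
    · linear_combination (κ - κ ^ 3) * e2 + κ ^ 3 * (e2 - e3) -
        (κ ^ 3 * (fb (κ ^ 2) (2 * j + 1) + fb (κ ^ 2) (2 * j)) +
          κ ^ 5 * (fb (κ ^ 2) (2 * j + 2) + fb (κ ^ 2) (2 * j + 1))) * I_sq -
        (κ ^ 3 + 2 * κ) * e2
    · linear_combination (-I * κ) * e2 - I * κ * e3

theorem bWORD : WORD := by
  intro k hk
  obtain ⟨j, rfl⟩ : ∃ j, k = j + 1 := ⟨k - 1, by omega⟩
  set a : ℕ → ℕ := fun i => if i = 1 then 2 * j + 1 else 2 with ha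
  have A : FG.Adm a 2 := ⟨by omega, by simp [ha], by simp [ha], fun i _ => by
    simp only [ha]; split_ifs <;> omega⟩
  obtain ⟨c, y, S, -⟩ := FG.st_sol FG.st_chkF FG.st_chkB FG.st_chkT a 2 A
  have s1 : cfS a 1 = 2 := by simp [cfS, ha]
  have s2 : cfS a 2 = 2 * j + 3 := by rw [cfS_succ, s1]; simp [ha]; omega
  have s3 : cfS a (2 + 1) = (2 * j + 1) + 4 := by rw [cfS_succ, s2]; simp [ha]
  obtain ⟨w0, w1, wt, nc, fin, pos⟩ := FG.st_link a 2 c y (2 * j + 1) A S s3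
  have hL : ∀ s < 2 * j + 1, FG.wd a 2 (s + 2) = false := fun s hs => by
    have := getD_cfL a (i := 1) (j := s) (l := 2 + 1) (by omega) (by simpa [ha] using hs)
    rw [s1, add_comm 2 s] at this
    exact this
  have hR : FG.wd a 2 (2 * j + 3) = true := by
    have := getD_cfL a (i := 2) (j := 0) (l := 2 + 1) (by omega) (by simp [ha])
    rw [s2] at this
    exact this
  generalize FG.wd a 2 = w at *
  generalize 2 * (starRingEnd ℂ) (c 0) * I = κ at *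
  obtain ⟨x1, y1, o1⟩ := WORD.run w κ w0 w1 j hL
  have p0 := pos 0 (by omega)
  have p1 := pos (2 * j + 1) le_rfl
  have nz := ne_zero_of_im p1
  rw [wz, div_ne_zero_iff] at nz
  obtain ⟨ρ, hU, hV⟩ := word_rep w (2 * j + 1 + 4) (Tm ![1, 0]) (Tm ![0, κ]) (wrep_rel w κ (by
    rw [Nat.add_one_sub_one]
    have h : w (2 * j + 1 + 3) = true := wt.trans hR
    rw [if_pos h, (wxyo_R κ h).1, (wxyo_R κ h).2.1, (wxyo_R κ (t := 2 * j + 1 + 2) hR).2.1, neg_neg]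
    exact ⟨fin, fun h => nz.1 (by rw [h]; ring)⟩))
  obtain ⟨F, -, h2, h3, h4, -⟩ := WD.fund ⟨w, _, _, κ, ρ, w0, w1, wt, nc,
    word_rel w (2 * j + 1 + 4), hU, hV, fin, pos⟩ (word_gen w (2 * j + 1 + 4))
  have eU : Tm ![1, 0] = Um := by
    ext i j; fin_cases i <;> fin_cases j <;> simp [Tm, Um]
  have eV : Tm ![0, κ] = Vm (κ ^ 2) := by
    ext i j; fin_cases i <;> fin_cases j <;> simp [Tm, Vm]
  have hG : ρ.range = Gam (κ ^ 2) := by
    refine le_antisymm ?_ ((Subgroup.closure_le _).2 ?_)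
    · rintro _ ⟨g, rfl⟩
      refine word_gen w _ ((Gam (κ ^ 2)).comap ρ) ?_ ?_ g
      · rw [Subgroup.mem_comap, hU, eU]; exact Subgroup.subset_closure (by simp)
      · rw [Subgroup.mem_comap, hV, eV]; exact Subgroup.subset_closure (by simp)
    · rintro g (rfl | rfl)
      · exact ⟨_, hU.trans eU⟩
      · exact ⟨_, hV.trans eV⟩
  refine ⟨κ ^ 2, F, ?_, hG ▸ h2, h3.1, h3.2.1, fun p hp => ?_, h4⟩
  swap
  · obtain ⟨g, hg⟩ := h3.2.2.1 p hp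
    exact ⟨ρ g, hG ▸ ⟨g, rfl⟩, hg⟩
  have k0 : κ ≠ 0 := by
    rintro rfl
    exact nz.2 (by rw [show 2 * j + 1 + 2 = 2 * j + 3 from rfl, x1]; ring)
  have cs := WORD.cassini (κ ^ 2) (2 * j + 1)
  have e2 : fb (κ ^ 2) (2 * j + 1 + 2) =
      κ ^ 2 * fb (κ ^ 2) (2 * j + 2) + fb (κ ^ 2) (2 * j + 1) := rfl
  have e3 : fb (κ ^ 2) (2 * j + 2) =
      κ ^ 2 * fb (κ ^ 2) (2 * j + 1) + fb (κ ^ 2) (2 * j) := rfl
  rw [e2, show 2 * j + 1 + 1 = 2 * j + 2 from rfl, show (-1 : ℂ) ^ (2 * j + 2) = 1 by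
    rw [show 2 * j + 2 = 2 * (j + 1) from rfl, pow_mul]; simp] at cs
  obtain ⟨a1, b1, c1⟩ := wxyo_R κ hR
  rw [show 2 * j + 1 + 3 = 2 * j + 3 + 1 from rfl, wn, a1, b1, c1, wn, x1, y1, o1] at fin
  have key : fb (κ ^ 2) (2 * j + 2) *
      ((κ ^ 2 + 2) * fb (κ ^ 2) (2 * j + 2) + 2 * fb (κ ^ 2) (2 * j + 1)) = 0 := by
    refine mul_left_cancel₀ (mul_ne_zero I_ne_zero (pow_ne_zero 2 k0)) ?_
    linear_combination -fin - I * κ ^ 2 * cs +
      I * κ ^ 2 * (fb (κ ^ 2) (2 * j + 2) + fb (κ ^ 2) (2 * j + 1)) * e3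
  rcases mul_eq_zero.1 key with h | h
  · exfalso
    obtain ⟨a0, b0, c0⟩ := wxyo_zero w κ
    obtain ⟨a1, b1, c1⟩ := wxyo_R κ w0
    obtain ⟨a2, b2, c2⟩ := wxyo_R κ w1
    simp only [wn, zero_add, Nat.reduceAdd] at a1 b1 c1 a2 b2 c2
    have q0 : wz w κ (0 + 2) = (κ ^ 2)⁻¹ := by
      rw [wz, zero_add, a2, b2, a1, b1, c1, a0, b0, c0]
      field_simp
      ring
    have q1 : wz w κ (2 * j + 1 + 2) = -(κ ^ 2)⁻¹ := by
      rw [h] at cs
      rw [wz, show 2 * j + 1 + 2 = 2 * j + 3 from rfl, x1, y1, h, mul_pow I, I_sq]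
      field_simp
      linear_combination -cs
    rw [q0] at p0
    rw [q1, neg_im] at p1
    linarith
  · exact h

end Pool.Agent.Lib.TW92
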